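import Mathlib

/-!
# Finite sets assigned to the ordinals below a power

We look for functions `s` from `κ ^ b` to the finite subsets of a cardinal `μ` such that, for every
`τ < μ`, the set `{r < κ ^ b : τ ∉ s r}` has order type less than `κ ^ b`.
-/

namespace Pool.Agent.Lib.EHM47

open Ordinal Cardinal Set Order

/-- The set `A` of ordinals embeds in the ordinal `β`. -/
def Emb (A : Set Ordinal.{0}) (β : Ordinal.{0}) : Prop :=
  ∃ f : Ordinal.{0} → Ordinal.{0}, (∀ x ∈ A, f x < β) ∧ ∀ x ∈ A, ∀ y ∈ A, x < y → f x < f y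

theorem Emb.mono {A B : Set Ordinal.{0}} {β γ : Ordinal.{0}} (h : Emb B β) (hAB : A ⊆ B)
    (hβ : β ≤ γ) : Emb A γ := by
  obtain ⟨f, h1, h2⟩ := h
  exact ⟨f, fun x hx => (h1 x (hAB hx)).trans_le hβ, fun x hx y hy => h2 x (hAB hx) y (hAB hy)⟩

theorem mul_add_lt {a q c x : Ordinal.{0}} (hq : q < c) (hx : x < a) : a * q + x < a * c := by
  have h1 : a * q + x < a * q + a := (add_lt_add_iff_left _).2 hx
  have h2 : a * q + a = a * (q + 1) := by rw [mul_add, mul_one]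
  rw [h2] at h1
  exact h1.trans_le (mul_le_mul_right (Order.add_one_le_of_lt hq) a)

theorem mul_add_lt_mul_add {a q q' x : Ordinal.{0}} (x' : Ordinal.{0}) (hq : q < q') (hx : x < a) :
    a * q + x < a * q' + x' :=
  (mul_add_lt hq hx).trans_le le_self_add

theorem div_mod_lt {a r r' : Ordinal.{0}} (h : r < r') :
    r / a < r' / a ∨ (r / a = r' / a ∧ r % a < r' % a) := by
  rcases (Ordinal.div_le_left h.le a).lt_or_eq with h1 | h1
  · exact Or.inl h1
  · refine Or.inr ⟨h1, ?_⟩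
    have h2 := h
    rw [← Ordinal.div_add_mod r a, ← Ordinal.div_add_mod r' a, h1] at h2
    exact (add_lt_add_iff_left _).1 h2

theorem div_lt_opow {κ b l r : Ordinal.{0}} (hκ : 0 < κ) (h : r < κ ^ (b + l)) :
    r / κ ^ b < κ ^ l := by
  rw [opow_add] at h
  exact (Ordinal.lt_mul_iff_div_lt (opow_pos b hκ).ne').1 h

/-- A set in `κ ^ b` embedding in `κ ^ g` gives a set in `κ ^ (b + l)` embedding in
`κ ^ (g + l)`. -/
theorem Emb.lift {κ b g l : Ordinal.{0}} (hκ : 0 < κ) {P : Ordinal.{0} → Prop}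
    (h : Emb {p | p < κ ^ b ∧ P p} (κ ^ g)) :
    Emb {r | r < κ ^ (b + l) ∧ P (r % κ ^ b)} (κ ^ (g + l)) := by
  obtain ⟨f, h1, h2⟩ := h
  have hmem : ∀ r ∈ {r | r < κ ^ (b + l) ∧ P (r % κ ^ b)}, r % κ ^ b ∈ {p | p < κ ^ b ∧ P p} :=
    fun r hr => ⟨Ordinal.mod_lt _ (opow_pos b hκ).ne', hr.2⟩
  refine ⟨fun r => κ ^ g * (r / κ ^ b) + f (r % κ ^ b), fun r hr => ?_, fun r hr r' hr' hrr => ?_⟩
  · rw [opow_add κ g l]
    exact mul_add_lt (div_lt_opow hκ hr.1) (h1 _ (hmem r hr))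
  · rcases div_mod_lt (a := κ ^ b) hrr with h3 | ⟨h3, h4⟩
    · exact mul_add_lt_mul_add _ h3 (h1 _ (hmem r hr))
    · simp only [h3]
      exact (add_lt_add_iff_left _).2 (h2 _ (hmem r hr) _ (hmem r' hr') h4)

/-- The base: finite sets of natural numbers. -/
theorem assign_base (κ Λ : Ordinal.{0}) (hκ : 0 < κ) (hΛ : 0 < Λ) :
    ∃ s : Ordinal.{0} → Finset Ordinal.{0}, ∀ τ < ω, Emb {r | r < κ ^ (Λ * ω) ∧ τ ∉ s r}
      (κ ^ (Λ * τ)) := by
  classical
  have hlim : IsSuccLimit (Λ * ω) := isSuccLimit_mul_right hΛ isSuccLimit_omega0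
  have hex : ∀ r < κ ^ (Λ * ω), ∃ n : ℕ, r < κ ^ (Λ * (n : Ordinal.{0})) := by
    intro r hr
    obtain ⟨c, hc, hc2⟩ := (lt_opow_of_isSuccLimit hκ.ne' hlim).1 hr
    obtain ⟨d, hd, hd2⟩ := (lt_mul_iff_of_isSuccLimit isSuccLimit_omega0).1 hc
    obtain ⟨n, rfl⟩ := lt_omega0.1 hd
    exact ⟨n, hc2.trans_le (opow_le_opow_right hκ hd2.le)⟩
  let n : Ordinal.{0} → ℕ := fun r => sInf {n : ℕ | r < κ ^ (Λ * (n : Ordinal.{0}))}
  refine ⟨fun r => (Finset.range (n r)).image (fun m : ℕ => (m : Ordinal.{0})), fun τ hτ => ?_⟩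
  obtain ⟨m, rfl⟩ := lt_omega0.1 hτ
  refine ⟨id, fun r hr => ?_, fun _ _ _ _ h => h⟩
  obtain ⟨hr1, hr2⟩ := hr
  have h1 : n r ≤ m := by
    by_contra hcon
    push Not at hcon
    exact hr2 (Finset.mem_image.2 ⟨m, Finset.mem_range.2 hcon, rfl⟩)
  have h2 : r < κ ^ (Λ * (n r : Ordinal.{0})) := by
    have := Nat.sInf_mem (hex r hr1)
    exact this
  refine h2.trans_le (opow_le_opow_right hκ (mul_le_mul_right ?_ Λ))
  exact_mod_cast h1

/-- The step: from finite subsets of `lam` to finite subsets of `L`. -/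
theorem assign_step (κ B Λ γ L lam : Ordinal.{0}) (hκ : 1 < κ) (hκω : ω ≤ κ) (hL : L ≤ κ)
    (hlim : IsSuccLimit L) (e : Ordinal.{0} → Ordinal.{0} → Ordinal.{0})
    (he : ∀ k < L, ∀ τ < k, e k τ < lam)
    (hinj : ∀ k < L, ∀ τ < k, ∀ τ' < k, e k τ = e k τ' → τ = τ')
    (s : Ordinal.{0} → Ordinal.{0} → Finset Ordinal.{0})
    (hs : ∀ k < L, ∀ τ < lam, Emb {r | r < κ ^ (B + Λ * k) ∧ τ ∉ s k r} (κ ^ γ)) :
    ∃ s' : Ordinal.{0} → Finset Ordinal.{0}, ∀ τ < L,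
      Emb {r | r < κ ^ (B + Λ * L) ∧ τ ∉ s' r} (κ ^ (max (B + Λ * τ) γ + 1)) := by
  classical
  have hκ0 : 0 < κ := zero_lt_one.trans hκ
  -- the block of an ordinal
  let k : Ordinal.{0} → Ordinal.{0} := fun r => sInf {k | r < κ ^ (B + Λ * k)}
  have hk : ∀ r < κ ^ (B + Λ * L), r < κ ^ (B + Λ * k r) ∧ k r < L := by
    intro r hr
    have hne : {k | r < κ ^ (B + Λ * k)}.Nonempty := ⟨L, hr⟩
    refine ⟨csInf_mem hne, ?_⟩
    have : ∃ k < L, r < κ ^ (B + Λ * k) := by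
      rcases eq_or_ne Λ 0 with hΛ | hΛ
      · refine ⟨0, hlim.bot_lt, ?_⟩
        rw [hΛ, zero_mul] at hr ⊢
        exact hr
      · have hlim' : IsSuccLimit (B + Λ * L) :=
          isSuccLimit_add B (isSuccLimit_mul_right (pos_iff_ne_zero.2 hΛ) hlim)
        obtain ⟨c, hc, hc2⟩ := (lt_opow_of_isSuccLimit hκ0.ne' hlim').1 hr
        obtain ⟨d, hd, hd2⟩ := (lt_add_iff_of_isSuccLimit
          (isSuccLimit_mul_right (pos_iff_ne_zero.2 hΛ) hlim)).1 hc
        obtain ⟨d', hd', hd2'⟩ := (lt_mul_iff_of_isSuccLimit hlim).1 hd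
        exact ⟨d', hd', hc2.trans_le (opow_le_opow_right hκ0
          (hd2.le.trans (add_le_add_right hd2'.le B)))⟩
    obtain ⟨k', hk', hk2⟩ := this
    exact lt_of_le_of_lt (csInf_le' hk2) hk'
  have hkmono : ∀ r r', r ≤ r' → r' < κ ^ (B + Λ * L) → k r ≤ k r' := by
    intro r r' hrr hr'
    exact csInf_le' (lt_of_le_of_lt hrr (hk r' hr').1)
  -- the finite sets
  have hfin : ∀ r, r < κ ^ (B + Λ * L) → {τ | τ < k r ∧ e (k r) τ ∈ s (k r) r}.Finite := by
    intro r hr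
    refine Set.Finite.of_finite_image (f := e (k r)) ((s (k r) r).finite_toSet.subset ?_) ?_
    · rintro _ ⟨τ, hτ, rfl⟩
      exact hτ.2
    · intro τ hτ τ' hτ' h
      exact hinj _ (hk r hr).2 τ hτ.1 τ' hτ'.1 h
  let s' : Ordinal.{0} → Finset Ordinal.{0} := fun r =>
    if h : r < κ ^ (B + Λ * L) then (hfin r h).toFinset else ∅
  have hs' : ∀ r, r < κ ^ (B + Λ * L) → ∀ τ, τ ∉ s' r → τ < k r → e (k r) τ ∉ s (k r) r := by
    intro r hr τ h1 h2 h3
    apply h1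
    simp only [s']
    rw [dif_pos hr, Set.Finite.mem_toFinset]
    exact ⟨h2, h3⟩
  choose! F hF1 hF2 using hs
  refine ⟨s', fun τ hτ => ?_⟩
  set m := max (B + Λ * τ) γ with hm
  have hmem : ∀ r, r < κ ^ (B + Λ * L) → τ ∉ s' r → τ < k r →
      r ∈ {r' | r' < κ ^ (B + Λ * k r) ∧ e (k r) τ ∉ s (k r) r'} :=
    fun r hr h1 h2 => ⟨(hk r hr).1, hs' r hr τ h1 h2⟩
  refine ⟨fun r => if k r ≤ τ then r else
    κ ^ m + (κ ^ γ * k r + F (k r) (e (k r) τ) r), fun r hr => ?_, fun r hr r' hr' hrr => ?_⟩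
  · obtain ⟨hr1, hr2⟩ := hr
    simp only
    split_ifs with h
    · refine (hk r hr1).1.trans_le (opow_le_opow_right hκ0 ?_)
      refine le_trans ?_ (le_self_add (a := m) (b := 1))
      exact (add_le_add_right (mul_le_mul_right h Λ) B).trans (le_max_left _ _)
    · push Not at h
      have h1 := hF1 (k r) (hk r hr1).2 (e (k r) τ) (he _ (hk r hr1).2 τ h) r (hmem r hr1 hr2 h)
      have h2 : κ ^ γ * k r + F (k r) (e (k r) τ) r < κ ^ m * κ := by
        refine (mul_add_lt (hk r hr1).2 h1).trans_le ?_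
        exact mul_le_mul' (opow_le_opow_right hκ0 (le_max_right _ _)) hL
      rw [opow_add, opow_one]
      have h3 : κ ^ m + κ ^ m * κ = κ ^ m * κ := by
        nth_rewrite 1 [← mul_one (κ ^ m)]
        rw [← mul_add, one_add_of_omega0_le hκω]
      rw [← h3]
      exact (add_lt_add_iff_left _).2 h2
  · obtain ⟨hr1, hr2⟩ := hr
    obtain ⟨hr1', hr2'⟩ := hr'
    have hkk := hkmono r r' hrr.le hr1'
    simp only
    by_cases h : k r ≤ τ
    · rw [if_pos h]
      by_cases h' : k r' ≤ τ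
      · rw [if_pos h']
        exact hrr
      · rw [if_neg h']
        refine lt_of_lt_of_le (hk r hr1).1 ?_
        refine le_trans (opow_le_opow_right hκ0 ?_) le_self_add
        exact (add_le_add_right (mul_le_mul_right h Λ) B).trans (le_max_left _ _)
    · have h' : ¬ k r' ≤ τ := fun h' => h (hkk.trans h')
      rw [if_neg h, if_neg h']
      push Not at h h'
      refine (add_lt_add_iff_left _).2 ?_
      have h1 := hF1 (k r) (hk r hr1).2 (e (k r) τ) (he _ (hk r hr1).2 τ h) r (hmem r hr1 hr2 h)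
      rcases hkk.lt_or_eq with h2 | h2
      · exact mul_add_lt_mul_add _ h2 h1
      · rw [← h2] at h' ⊢
        refine (add_lt_add_iff_left _).2 ?_
        have h3 := hmem r' hr1' hr2'
        rw [← h2] at h3
        exact hF2 (k r) (hk r hr1).2 (e (k r) τ) (he _ (hk r hr1).2 τ h) r (hmem r hr1 hr2 h) r'
          (h3 h') hrr

end Pool.Agent.Lib.EHM47
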