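import Pool.Agent.Lib.EHM47.Decide

/-!
# The construction of the graph

The vertices are arranged in rows indexed by a well-order `Ω`.  The vertex `x` in row `ξ` carries a
finite set `s x` of tasks; the pair (predecessors of `x`, rank of `x`) depends only on `ξ` and
`s x`.
-/

namespace Pool.Agent.Lib.EHM47

open Set

/-- The frame of the construction. -/
structure Frame (Ω W M : Type*) [LinearOrder Ω] where
  row : W → Ω
  b : W → Ω
  b_inj : Function.Injective b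
  c : Ω → Ω → Ω → M
  c_inj : ∀ ξ δ j δ' j', δ < ξ → j < ξ → δ' < ξ → j' < ξ → c ξ δ j = c ξ δ' j' → δ = δ' ∧ j = j'
  s : W → Finset M
  E : Ω → Set Ω

variable {Ω W M : Type*} [LinearOrder Ω] (Fr : Frame Ω W M)

/-- The data attached to a row and a set of tasks. -/
abbrev Data (Ω W M : Type*) := Ω → Finset M → Finset W × ℕ

/-- The predecessors of a vertex. -/
def pd (D : Data Ω W M) (x : W) : Finset W := (D (Fr.row x) (Fr.s x)).1

/-- The rank of a vertex. -/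
def rk (D : Data Ω W M) (x : W) : ℕ := (D (Fr.row x) (Fr.s x)).2

/-- The requirements for the data `d` at the row `ξ`, given the data `D` at the previous rows. -/
structure Good (ξ : Ω) (D : Data Ω W M) (d : Finset M → Finset W × ℕ) : Prop where
  mem : ∀ a, ∀ y ∈ (d a).1, Fr.row y < ξ ∧ (d a).2 < rk Fr D y ∧ pd Fr D y ⊆ (d a).1
  chain : ∀ a, ∀ y ∈ (d a).1, ∀ z ∈ (d a).1, y = z ∨ y ∈ pd Fr D z ∨ z ∈ pd Fr D y
  task : ∀ a δ j, δ < ξ → j < ξ → Fr.c ξ δ j ∈ a →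
    (∃ h ∈ (d a).1, Fr.b h < δ ∧ Fr.b h ∈ Fr.E j) ∨
    (∀ h, Fr.row h < ξ → Fr.b h < δ → Fr.b h ∈ Fr.E j → rk Fr D h < (d a).2) ∨
    ∃ u ∈ (d a).1, Fr.b u < δ ∧ ∀ h, Fr.row h < ξ → Fr.b h < δ → Fr.b h ∈ Fr.E j →
      u ∈ pd Fr D h → rk Fr D h < (d a).2

variable {Fr}

theorem pd_congr {ξ : Ω} {D D' : Data Ω W M} (h : ∀ η < ξ, D η = D' η) {x : W}
    (hx : Fr.row x < ξ) : pd Fr D x = pd Fr D' x := by
  unfold pd
  rw [h _ hx]

theorem rk_congr {ξ : Ω} {D D' : Data Ω W M} (h : ∀ η < ξ, D η = D' η) {x : W}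
    (hx : Fr.row x < ξ) : rk Fr D x = rk Fr D' x := by
  unfold rk
  rw [h _ hx]

theorem Good.congr {ξ : Ω} {D D' : Data Ω W M} (h : ∀ η < ξ, D η = D' η)
    {d : Finset M → Finset W × ℕ} (hd : Good Fr ξ D d) : Good Fr ξ D' d := by
  refine ⟨fun a y hy => ?_, fun a y hy z hz => ?_, fun a δ j hδ hj hc => ?_⟩
  · obtain ⟨h1, h2, h3⟩ := hd.mem a y hy
    rw [pd_congr h h1] at h3
    rw [rk_congr h h1] at h2
    exact ⟨h1, h2, h3⟩
  · have h1 := hd.chain a y hy z hz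
    rw [pd_congr h (hd.mem a y hy).1, pd_congr h (hd.mem a z hz).1] at h1
    exact h1
  · rcases hd.task a δ j hδ hj hc with h1 | h1 | ⟨u, hu, h1, h2⟩
    · exact Or.inl h1
    · refine Or.inr (Or.inl fun y h2 h3 h4 => ?_)
      rw [← rk_congr h h2]
      exact h1 y h2 h3 h4
    · refine Or.inr (Or.inr ⟨u, hu, h1, fun y h3 h4 h5 h6 => ?_⟩)
      rw [← pd_congr h h3] at h6
      rw [← rk_congr h h3]
      exact h2 y h3 h4 h5 h6

/-- The data at the row `ξ` exist if the data at the previous rows are good. -/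
theorem exists_good (ξ : Ω) (D : Data Ω W M) (hD : ∀ η < ξ, Good Fr η D (D η)) :
    ∃ d, Good Fr ξ D d := by
  classical
  have hpd : ∀ y, Fr.row y < ξ → ∀ z ∈ pd Fr D y,
      Fr.row z < Fr.row y ∧ rk Fr D y < rk Fr D z ∧ pd Fr D z ⊆ pd Fr D y :=
    fun y hy z hz => (hD _ hy).mem (Fr.s y) z hz
  have hch : ∀ x, Fr.row x < ξ → ∀ y ∈ pd Fr D x, ∀ z ∈ pd Fr D x,
      y = z ∨ y ∈ pd Fr D z ∨ z ∈ pd Fr D y :=
    fun x hx => (hD _ hx).chain (Fr.s x)
  have key : ∀ a : Finset M, ∃ (t' : Option W) (r : ℕ), 0 < r ∧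
      (∀ y, t' = some y → Fr.row y < ξ ∧ r < rk Fr D y) ∧
      ∀ δ j, δ < ξ → j < ξ → Fr.c ξ δ j ∈ a →
        (∃ h ∈ cl (pd Fr D) t', Fr.b h < δ ∧ Fr.b h ∈ Fr.E j) ∨
        (∀ h, Fr.row h < ξ → Fr.b h < δ → Fr.b h ∈ Fr.E j → rk Fr D h < r) ∨
        ∃ u ∈ cl (pd Fr D) t', Fr.b u < δ ∧ ∀ h, Fr.row h < ξ → Fr.b h < δ → Fr.b h ∈ Fr.E j →
          u ∈ pd Fr D h → rk Fr D h < r := by
    intro a
    have hfin : {p : Ω × Ω | p.1 < ξ ∧ p.2 < ξ ∧ Fr.c ξ p.1 p.2 ∈ a}.Finite := by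
      refine Set.Finite.of_finite_image (f := fun p : Ω × Ω => Fr.c ξ p.1 p.2)
        (a.finite_toSet.subset ?_) ?_
      · rintro _ ⟨p, hp, rfl⟩
        exact hp.2.2
      · intro p hp q hq hpq
        have h := Fr.c_inj ξ p.1 p.2 q.1 q.2 hp.1 hp.2.1 hq.1 hq.2.1 hpq
        exact Prod.ext h.1 h.2
    obtain ⟨t', r, hr, ht', -, htask⟩ := decide_tasks {y | Fr.row y < ξ} Fr.b (pd Fr D)
      (rk Fr D) (fun p : Ω × Ω => p.1) (fun p : Ω × Ω => {h | Fr.row h < ξ ∧ Fr.b h < p.1 ∧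
        Fr.b h ∈ Fr.E p.2}) (fun y hy z hz => (hpd y hy z hz).2) _ hfin.toFinset rfl
      (fun i _ h hh => ⟨hh.1, hh.2.1⟩) none 0 (fun y hy => by simp at hy)
    refine ⟨t', r, hr, ht', fun δ j hδ hj hc => ?_⟩
    have hmem : ((δ, j) : Ω × Ω) ∈ hfin.toFinset := by
      rw [Set.Finite.mem_toFinset]
      exact ⟨hδ, hj, hc⟩
    rcases htask (δ, j) hmem with ⟨h, h1, h2⟩ | h1 | ⟨u, h1, h2, h3⟩
    · exact Or.inl ⟨h, h1, h2.2.1, h2.2.2⟩
    · exact Or.inr (Or.inl fun h h2 h3 h4 => h1 h ⟨h2, h3, h4⟩)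
    · exact Or.inr (Or.inr ⟨u, h1, h2, fun h h4 h5 h6 => h3 h ⟨h4, h5, h6⟩⟩)
  choose t r hr ht htask using key
  refine ⟨fun a => (cl (pd Fr D) (t a), r a), fun a y hy => ?_, fun a y hy z hz => ?_, htask⟩
  · have hy' : y ∈ cl (pd Fr D) (t a) := hy
    cases hta : t a with
    | none => rw [hta] at hy'; simp [cl] at hy'
    | some w =>
      obtain ⟨hw1, hw2⟩ := ht a w hta
      rw [hta] at hy'
      simp only [cl, Finset.mem_insert] at hy'
      simp only [cl]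
      rcases hy' with rfl | hy'
      · exact ⟨hw1, hw2, Finset.subset_insert _ _⟩
      · obtain ⟨h1, h2, h3⟩ := hpd w hw1 y hy'
        exact ⟨h1.trans hw1, hw2.trans h2, h3.trans (Finset.subset_insert _ _)⟩
  · have hy' : y ∈ cl (pd Fr D) (t a) := hy
    have hz' : z ∈ cl (pd Fr D) (t a) := hz
    cases hta : t a with
    | none => rw [hta] at hy'; simp [cl] at hy'
    | some w =>
      obtain ⟨hw1, hw2⟩ := ht a w hta
      rw [hta] at hy' hz'
      simp only [cl, Finset.mem_insert] at hy' hz'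
      rcases hy' with rfl | hy'
      · rcases hz' with rfl | hz'
        · exact Or.inl rfl
        · exact Or.inr (Or.inr hz')
      · rcases hz' with rfl | hz'
        · exact Or.inr (Or.inl hy')
        · exact hch w hw1 y hy' z hz'

/-- The whole construction. -/
theorem exists_data [WellFoundedLT Ω] : ∃ D : Data Ω W M, ∀ ξ, Good Fr ξ D (D ξ) := by
  classical
  let wf : WellFounded (fun i j : Ω => i < j) := wellFounded_lt
  let ext : (ξ : Ω) → ((η : Ω) → η < ξ → Finset M → Finset W × ℕ) → Data Ω W M :=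
    fun ξ f η => if h : η < ξ then f η h else fun _ => (∅, 0)
  let G : (ξ : Ω) → ((η : Ω) → η < ξ → Finset M → Finset W × ℕ) → (Finset M → Finset W × ℕ) :=
    fun ξ f => if h : ∃ d, Good Fr ξ (ext ξ f) d then h.choose else fun _ => (∅, 0)
  let D : Data Ω W M := wf.fix G
  have hD : ∀ ξ, D ξ = G ξ (fun η _ => D η) := fun ξ => wf.fix_eq G ξ
  refine ⟨D, fun ξ => ?_⟩
  induction ξ using wf.induction with
  | _ ξ ih =>
    have hext : ∀ η < ξ, ext ξ (fun η _ => D η) η = D η := by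
      intro η hη
      simp only [ext, hη, dif_pos]
    have h1 : ∃ d, Good Fr ξ (ext ξ (fun η _ => D η)) d := by
      obtain ⟨d, hd⟩ := exists_good ξ D ih
      exact ⟨d, hd.congr (fun η hη => (hext η hη).symm)⟩
    have h2 : D ξ = h1.choose := by
      rw [hD ξ]
      simp only [G]
      rw [dif_pos h1]
    rw [h2]
    exact h1.choose_spec.congr hext

end Pool.Agent.Lib.EHM47
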