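import Mathlib

/-!
# The decision lemma

A finite family of tasks is processed in the order of their heights; each task is either met by an
element above the current one, or given up together with a bound for the rank.
-/

namespace Pool.Agent.Lib.EHM47

open Set

variable {W Ω ι : Type*} [LinearOrder Ω]

/-- The down-closure of an optional element. -/
def cl [DecidableEq W] (pd : W → Finset W) : Option W → Finset W
  | none => ∅
  | some y => insert y (pd y)

theorem decide_tasks [DecidableEq W] [DecidableEq ι] (T : Set W) (b : W → Ω) (pd : W → Finset W)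
    (rk : W → ℕ) (δ : ι → Ω) (X : ι → Set W)
    (h1 : ∀ y ∈ T, ∀ z ∈ pd y, rk y < rk z ∧ pd z ⊆ pd y) :
    ∀ (n : ℕ) (F : Finset ι), F.card = n → (∀ i ∈ F, ∀ h ∈ X i, h ∈ T ∧ b h < δ i) →
      ∀ (t : Option W) (B : ℕ), (∀ y, t = some y → y ∈ T ∧ (∀ i ∈ F, b y < δ i) ∧ B + 2 ^ n < rk y) →
      ∃ (t' : Option W) (r : ℕ), B < r ∧ (∀ y, t' = some y → y ∈ T ∧ r < rk y) ∧
        cl pd t ⊆ cl pd t' ∧ ∀ i ∈ F, (∃ h ∈ cl pd t', h ∈ X i) ∨ (∀ h ∈ X i, rk h < r) ∨
          ∃ u ∈ cl pd t', b u < δ i ∧ ∀ h ∈ X i, u ∈ pd h → rk h < r := by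
  intro n
  induction n with
  | zero =>
    intro F hF hX t B ht
    refine ⟨t, B + 1, Nat.lt_succ_self B, fun y hy => ?_, Finset.Subset.refl _, ?_⟩
    · obtain ⟨h2, -, h3⟩ := ht y hy
      exact ⟨h2, by simpa using h3⟩
    · intro i hi
      rw [Finset.card_eq_zero] at hF
      rw [hF] at hi
      simp at hi
  | succ n ih =>
    intro F hF hX t B ht
    have hne : F.Nonempty := by
      rw [← Finset.card_pos, hF]
      exact Nat.succ_pos n
    obtain ⟨i, hi, hmin⟩ := Finset.exists_min_image F δ hne
    have hcard : (F.erase i).card = n := by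
      rw [Finset.card_erase_of_mem hi, hF]
      rfl
    have hX' : ∀ i' ∈ F.erase i, ∀ h ∈ X i', h ∈ T ∧ b h < δ i' :=
      fun i' hi' => hX i' (Finset.mem_of_mem_erase hi')
    by_cases hA : ∃ h ∈ X i, (∀ y, t = some y → y ∈ pd h) ∧ B + 2 ^ n < rk h
    · obtain ⟨h, hh, hth, hrk⟩ := hA
      obtain ⟨hT, hb⟩ := hX i hi h hh
      obtain ⟨t', r, hr, ht', hcl, htask⟩ := ih (F.erase i) hcard hX' (some h) B (by
        intro y hy
        rw [Option.some_inj] at hy
        subst hy
        refine ⟨hT, fun i' hi' => ?_, hrk⟩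
        exact lt_of_lt_of_le hb (hmin i' (Finset.mem_of_mem_erase hi')))
      refine ⟨t', r, hr, ht', ?_, ?_⟩
      · refine Finset.Subset.trans ?_ hcl
        cases t with
        | none => simp [cl]
        | some y =>
          have hy := hth y rfl
          intro z hz
          simp only [cl, Finset.mem_insert] at hz ⊢
          rcases hz with rfl | hz
          · exact Or.inr hy
          · exact Or.inr ((h1 h hT y hy).2 hz)
      · intro i' hi'
        by_cases hii : i' = i
        · subst hii
          exact Or.inl ⟨h, hcl (by simp [cl]), hh⟩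
        · exact htask i' (Finset.mem_erase.2 ⟨hii, hi'⟩)
    · push Not at hA
      obtain ⟨t', r, hr, ht', hcl, htask⟩ := ih (F.erase i) hcard hX' t (B + 2 ^ n) (by
        intro y hy
        obtain ⟨h2, h3, h4⟩ := ht y hy
        refine ⟨h2, fun i' hi' => h3 i' (Finset.mem_of_mem_erase hi'), ?_⟩
        rw [pow_succ] at h4
        omega)
      refine ⟨t', r, lt_of_le_of_lt (Nat.le_add_right _ _) hr, ht', hcl, ?_⟩
      intro i' hi'
      by_cases hii : i' = i
      · subst hii
        cases t with
        | none =>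
          refine Or.inr (Or.inl fun h hh => ?_)
          have := hA h hh (fun y hy => by simp at hy)
          omega
        | some y =>
          refine Or.inr (Or.inr ⟨y, hcl (by simp [cl]), (ht y rfl).2.1 i' hi', fun h hh hy => ?_⟩)
          have := hA h hh (fun y' hy' => by
            rw [Option.some_inj] at hy'
            rw [← hy']
            exact hy)
          omega
      · exact htask i' (Finset.mem_erase.2 ⟨hii, hi'⟩)

end Pool.Agent.Lib.EHM47
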