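import Pool.Agent.Lib.EHM47.Length

/-!
# Assignments for the cardinals `ℵ_n`
-/

namespace Pool.Agent.Lib.EHM47

open Ordinal Cardinal Set Order

/-- Injections of the ordinals below `c⁺` into `c`. -/
theorem exists_inj (c : Cardinal.{0}) : ∃ e : Ordinal.{0} → Ordinal.{0} → Ordinal.{0},
    (∀ k < (Order.succ c).ord, ∀ τ < k, e k τ < c.ord) ∧
    ∀ k < (Order.succ c).ord, ∀ τ < k, ∀ τ' < k, e k τ = e k τ' → τ = τ' := by
  classical
  have h : ∀ k : Ordinal.{0}, ∃ e : Ordinal.{0} → Ordinal.{0}, k < (Order.succ c).ord →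
      (∀ τ < k, e τ < c.ord) ∧ ∀ τ < k, ∀ τ' < k, e τ = e τ' → τ = τ' := by
    intro k
    by_cases hk : k < (Order.succ c).ord
    · have h1 : #(k.ToType) ≤ #(c.ord.ToType) := by
        rw [Cardinal.mk_toType, Cardinal.mk_toType, Cardinal.card_ord]
        exact Order.lt_succ_iff.1 (Cardinal.lt_ord.1 hk)
      obtain ⟨φ⟩ := (Cardinal.le_def _ _).1 h1
      refine ⟨fun τ => if hτ : τ < k then (Ordinal.ToType.mk.symm (φ (Ordinal.ToType.mk ⟨τ, hτ⟩))).1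
        else 0, fun _ => ⟨fun τ hτ => ?_, fun τ hτ τ' hτ' h2 => ?_⟩⟩
      · simp only
        rw [dif_pos hτ]
        exact (Ordinal.ToType.mk.symm (φ (Ordinal.ToType.mk ⟨τ, hτ⟩))).2
      · simp only at h2
        rw [dif_pos hτ, dif_pos hτ'] at h2
        have h3 := Ordinal.ToType.mk.symm.injective (Subtype.ext h2)
        have h4 := Ordinal.ToType.mk.injective (φ.injective h3)
        exact congrArg Subtype.val h4
    · exact ⟨fun _ => 0, fun h => (hk h).elim⟩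
  choose e he using h
  exact ⟨e, fun k hk => (he k hk).1, fun k hk => (he k hk).2⟩

/-- Assignments: the set of the ordinals below `κ ^ b` missed by `τ` embeds in a smaller power. -/
def Assigned (κ b m : Ordinal.{0}) : Prop :=
  ∃ s : Ordinal.{0} → Finset Ordinal.{0}, ∀ τ < m, ∃ g < b, Emb {r | r < κ ^ b ∧ τ ∉ s r} (κ ^ g)

theorem assigned_zero (κ : Ordinal.{0}) (hκ : 0 < κ) : Assigned κ ω ω := by
  obtain ⟨s, hs⟩ := assign_base κ 1 hκ zero_lt_one
  refine ⟨s, fun τ hτ => ⟨τ, hτ, ?_⟩⟩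
  have := hs τ hτ
  rwa [one_mul, one_mul] at this

theorem assigned_one (κ : Ordinal.{0}) (hκ : ω₁ ≤ κ) : Assigned κ ω₁ ω₁ := by
  have h1 : (Order.succ ℵ₀).ord = ω₁ := by
    rw [Cardinal.succ_aleph0, Cardinal.ord_aleph]
  obtain ⟨e, he, hinj⟩ := exists_inj ℵ₀
  rw [h1] at he hinj
  rw [Cardinal.ord_aleph0] at he
  have hlim : IsSuccLimit (ω₁ : Ordinal.{0}) := by
    rw [← h1]
    exact isSuccLimit_ord (isRegular_succ le_rfl).aleph0_le
  obtain ⟨s, hs⟩ := assign_one κ ω₁ ((omega0_le_of_isSuccLimit hlim).trans hκ) hκ hlim e he hinj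
  refine ⟨s, fun τ hτ => ⟨_, hlim.add_one_lt (max_lt hτ ?_), hs τ hτ⟩⟩
  exact omega0_lt_omega_one

theorem assigned_two (κ : Ordinal.{0}) (hκ : ω_ 2 ≤ κ) (hκlim : IsSuccLimit κ) :
    Assigned κ (ω_ 2) (ω_ 2) := by
  classical
  have h1 : (Order.succ ℵ₀).ord = ω₁ := by
    rw [Cardinal.succ_aleph0, Cardinal.ord_aleph]
  have h2 : (Order.succ (ℵ_ 1)).ord = ω_ 2 := by
    rw [Cardinal.succ_aleph, Cardinal.ord_aleph, one_add_one_eq_two]
  have h3 : (ℵ_ 1).ord = (ω₁ : Ordinal.{0}) := Cardinal.ord_aleph 1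
  obtain ⟨e₁, he₁, hinj₁⟩ := exists_inj ℵ₀
  rw [h1, ← h3] at he₁ hinj₁
  rw [Cardinal.ord_aleph0] at he₁
  obtain ⟨e₂, he₂, hinj₂⟩ := exists_inj (ℵ_ 1)
  rw [h2] at he₂ hinj₂
  have hreg : (ℵ_ 1 : Cardinal.{0}).IsRegular := isRegular_aleph_one
  have hlim : IsSuccLimit (ω_ 2 : Ordinal.{0}) := by
    rw [← h2]
    exact isSuccLimit_ord (isRegular_succ (Cardinal.aleph0_le_aleph 1)).aleph0_le
  have hω1 : ω < (ℵ_ 1 : Cardinal.{0}).ord := by
    rw [h3]
    exact omega0_lt_omega_one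
  have h12 : (ℵ_ 1 : Cardinal.{0}).ord < ω_ 2 := by
    rw [h3]
    exact Ordinal.omega_lt_omega.2 one_lt_two
  have hκω : ω ≤ κ := omega0_le_of_isSuccLimit hκlim
  have hκ0 : 0 < κ := omega0_pos.trans_le hκω
  have haux := assign_two_aux κ (ℵ_ 1) hreg hω1 (ω_ 2) hκlim hκ e₁ he₁ hinj₁ e₂ he₂ hinj₂
  choose! S hS using haux
  obtain ⟨s, hs⟩ := assign_step κ 0 1 (ℵ_ 1 : Cardinal.{0}).ord (ω_ 2) (ℵ_ 1 : Cardinal.{0}).ord
    (one_lt_omega0.trans_le hκω) hκω hκ hlim e₂ he₂ hinj₂ S (fun k hk τ hτ => by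
      obtain ⟨g, hg, h⟩ := hS k hk τ hτ
      rw [zero_add, one_mul]
      exact h.mono (fun _ h => h) (opow_le_opow_right hκ0 hg.le))
  refine ⟨s, fun τ hτ => ⟨_, hlim.add_one_lt (max_lt hτ h12), ?_⟩⟩
  have h := hs τ hτ
  simp only [zero_add, one_mul] at h
  exact h

/-- The general case: some exponent. -/
theorem assign_general (n : ℕ) : ∀ κ : Ordinal.{0}, (ℵ_ n : Cardinal.{0}).ord ≤ κ →
    ∀ Λ : Ordinal.{0}, 0 < Λ → Λ.card ≤ κ.card → ∃ b : Ordinal.{0}, b.card ≤ κ.card ∧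
      ∃ s : Ordinal.{0} → Finset Ordinal.{0}, ∀ τ < (ℵ_ n : Cardinal.{0}).ord, ∃ g, g + Λ ≤ b ∧
        Emb {r | r < κ ^ b ∧ τ ∉ s r} (κ ^ g) := by
  induction n with
  | zero =>
    intro κ hκ Λ hΛ hΛc
    rw [Nat.cast_zero, Cardinal.aleph_zero, Cardinal.ord_aleph0] at hκ ⊢
    obtain ⟨s, hs⟩ := assign_base κ Λ (omega0_pos.trans_le hκ) hΛ
    have hκc : ℵ₀ ≤ κ.card := by
      have := Ordinal.card_le_card hκ
      rwa [Ordinal.card_omega0] at this
    refine ⟨Λ * ω, ?_, s, fun τ hτ => ⟨Λ * τ, ?_, hs τ hτ⟩⟩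
    · rw [Ordinal.card_mul, Ordinal.card_omega0]
      exact Cardinal.mul_le_of_le hκc hΛc hκc
    · have : Λ * τ + Λ = Λ * (τ + 1) := by rw [mul_add, mul_one]
      rw [this]
      exact mul_le_mul_right (Order.add_one_le_of_lt hτ) Λ
  | succ n ih =>
    intro κ hκ Λ hΛ hΛc
    set c : Cardinal.{0} := ℵ_ n with hc
    have hc0 : ℵ₀ ≤ c := Cardinal.aleph0_le_aleph _
    have hsucc : (ℵ_ ((n + 1 : ℕ) : Ordinal.{0}) : Cardinal.{0}) = Order.succ c := by
      rw [hc, Cardinal.succ_aleph, Nat.cast_add, Nat.cast_one]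
    rw [hsucc] at hκ ⊢
    set L : Ordinal.{0} := (Order.succ c).ord with hL
    have hlim : IsSuccLimit L := isSuccLimit_ord (isRegular_succ hc0).aleph0_le
    have hcL : c.ord ≤ L := Cardinal.ord_le_ord.2 (Order.le_succ c)
    have hκω : ω ≤ κ := (omega0_le_of_isSuccLimit hlim).trans hκ
    have hκ0 : 0 < κ := omega0_pos.trans_le hκω
    have hκc : ℵ₀ ≤ κ.card := by
      have := Ordinal.card_le_card hκω
      rwa [Ordinal.card_omega0] at this
    have hLc : L.card ≤ κ.card := Ordinal.card_le_card hκ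
    have hΛL : (Λ * L).card ≤ κ.card := by
      rw [Ordinal.card_mul]
      exact Cardinal.mul_le_of_le hκc hΛc hLc
    obtain ⟨b, hb, s, hs⟩ := ih κ (hcL.trans hκ) (Λ * L) (mul_pos hΛ hlim.bot_lt) hΛL
    obtain ⟨e, he, hinj⟩ := exists_inj c
    obtain ⟨s', hs'⟩ := assign_step κ b Λ b L c.ord (one_lt_omega0.trans_le hκω) hκω hκ hlim e he
      hinj (fun _ r => s (r % κ ^ b)) (fun k hk τ hτ => by
        obtain ⟨g, hg, h⟩ := hs τ hτ
        refine (Emb.lift (l := Λ * k) hκ0 h).mono (fun _ h => h) (opow_le_opow_right hκ0 ?_)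
        exact (add_le_add_right (mul_le_mul_right hk.le Λ) g).trans hg)
    refine ⟨b + Λ * L, ?_, s', fun τ hτ => ⟨_, ?_, hs' τ hτ⟩⟩
    · rw [Ordinal.card_add]
      exact Cardinal.add_le_of_le hκc hb hΛL
    · have h1 : max (b + Λ * τ) b = b + Λ * τ := max_eq_left le_self_add
      rw [h1]
      have h2 : b + Λ * τ + 1 + Λ ≤ b + Λ * τ + Λ + Λ := by
        refine add_le_add_left ?_ Λ
        exact add_le_add_right (Order.one_le_iff_pos.2 hΛ) _
      refine h2.trans ?_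
      have h3 : b + Λ * τ + Λ + Λ = b + Λ * (τ + 1 + 1) := by
        rw [mul_add, mul_add, mul_one, add_assoc, add_assoc, add_assoc]
      rw [h3]
      refine add_le_add_right (mul_le_mul_right ?_ Λ) b
      exact (hlim.add_one_lt (hlim.add_one_lt hτ)).le

theorem assigned_general (n : ℕ) (κ : Ordinal.{0}) (hκ : (ℵ_ n : Cardinal.{0}).ord ≤ κ) :
    ∃ b : Ordinal.{0}, b.card ≤ κ.card ∧ Assigned κ b (ℵ_ n : Cardinal.{0}).ord := by
  have h0 : ω ≤ κ := by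
    refine le_trans ?_ hκ
    rw [← Cardinal.ord_aleph0]
    exact Cardinal.ord_le_ord.2 (Cardinal.aleph0_le_aleph _)
  have hκc : ℵ₀ ≤ κ.card := by
    have := Ordinal.card_le_card h0
    rwa [Ordinal.card_omega0] at this
  obtain ⟨b, hb, s, hs⟩ := assign_general n κ hκ 1 zero_lt_one
    (by rw [Ordinal.card_one]; exact Cardinal.one_le_aleph0.trans hκc)
  refine ⟨b, hb, s, fun τ hτ => ?_⟩
  obtain ⟨g, hg, h⟩ := hs τ hτ
  exact ⟨g, (Order.lt_add_one_iff.2 le_rfl).trans_le hg, h⟩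

end Pool.Agent.Lib.EHM47
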