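import Pool.Agent.Lib.EHM47.Build
import Pool.Agent.Lib.IncompactB.Basic

/-!
# The graph: no infinite path, independent sets avoid tasks
-/

namespace Pool.Agent.Lib.EHM47

open Set Cardinal

section Path

variable {Ω W M : Type*} [LinearOrder Ω] {Fr : Frame Ω W M} {D : Data Ω W M}

/-- The graph. -/
def graph (Fr : Frame Ω W M) (D : Data Ω W M) : SimpleGraph W where
  Adj x y := x ≠ y ∧ (x ∈ pd Fr D y ∨ y ∈ pd Fr D x)
  symm := ⟨fun _ _ h => ⟨h.1.symm, h.2.symm⟩⟩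
  loopless := ⟨fun _ h => h.1 rfl⟩

theorem pd_mem (hD : ∀ ξ, Good Fr ξ D (D ξ)) {x y : W} (h : y ∈ pd Fr D x) :
    Fr.row y < Fr.row x ∧ rk Fr D x < rk Fr D y ∧ pd Fr D y ⊆ pd Fr D x :=
  (hD _).mem (Fr.s x) y h

theorem not_mem_pd_self (hD : ∀ ξ, Good Fr ξ D (D ξ)) (x : W) : x ∉ pd Fr D x :=
  fun h => lt_irrefl _ (pd_mem hD h).1

theorem pd_card_lt (hD : ∀ ξ, Good Fr ξ D (D ξ)) {x y : W} (h : y ∈ pd Fr D x) :
    (pd Fr D y).card < (pd Fr D x).card := by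
  refine Finset.card_lt_card ?_
  rw [Finset.ssubset_iff_of_subset (pd_mem hD h).2.2]
  exact ⟨y, h, not_mem_pd_self hD y⟩

/-- Along a path, a vertex with the least number of predecessors is a predecessor of all the later
vertices. -/
theorem path_tail (hD : ∀ ξ, Good Fr ξ D (D ξ)) (v : ℕ → W) (hinj : Function.Injective v)
    (hv : ∀ n, (graph Fr D).Adj (v n) (v (n + 1))) (n₀ : ℕ)
    (hmin : ∀ n, (pd Fr D (v n₀)).card ≤ (pd Fr D (v n)).card) :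
    ∀ m, v n₀ ∈ pd Fr D (v (n₀ + 1 + m)) := by
  intro m
  induction m with
  | zero =>
    rcases (hv n₀).2 with h | h
    · exact h
    · have h1 := pd_card_lt hD h
      have h2 := hmin (n₀ + 1)
      omega
  | succ m ih =>
    rcases (hv (n₀ + 1 + m)).2 with h | h
    · exact (pd_mem hD h).2.2 ih
    · rcases (hD _).chain (Fr.s (v (n₀ + 1 + m))) _ ih _ h with h1 | h1 | h1
      · have := hinj h1
        omega
      · exact h1
      · have h2 := pd_card_lt hD h1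
        have h3 := hmin (n₀ + 1 + m + 1)
        omega

theorem exists_min_card (f : ℕ → ℕ) : ∃ n₀, ∀ n, f n₀ ≤ f n := by
  obtain ⟨n₀, h⟩ := Function.argminOn_mem f Set.univ ⟨0, trivial⟩ |> fun _ =>
    (⟨Function.argminOn f Set.univ ⟨0, trivial⟩, fun n =>
      Function.argminOn_le f Set.univ (Set.mem_univ n)⟩ : ∃ n₀, ∀ n, f n₀ ≤ f n)
  exact ⟨n₀, h⟩

theorem no_path_aux (hD : ∀ ξ, Good Fr ξ D (D ξ)) : ∀ (R : ℕ) (v : ℕ → W),
    Function.Injective v → (∀ n, (graph Fr D).Adj (v n) (v (n + 1))) →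
    (∀ n, rk Fr D (v n) < R) → False := by
  intro R
  induction R with
  | zero => exact fun v _ _ h => Nat.not_lt_zero _ (h 0)
  | succ R ih =>
    intro v hinj hv hR
    obtain ⟨n₀, hn₀⟩ := exists_min_card (fun n => (pd Fr D (v n)).card)
    have h := path_tail hD v hinj hv n₀ hn₀
    refine ih (fun m => v (n₀ + 1 + m)) (fun a b hab => ?_) (fun m => hv (n₀ + 1 + m)) (fun m => ?_)
    · have := hinj hab
      omega
    · have h1 := (pd_mem hD (h m)).2.1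
      have h2 := hR n₀
      omega

theorem no_path (hD : ∀ ξ, Good Fr ξ D (D ξ)) (v : ℕ → W) (hinj : Function.Injective v)
    (hv : ∀ n, (graph Fr D).Adj (v n) (v (n + 1))) : False := by
  obtain ⟨n₀, hn₀⟩ := exists_min_card (fun n => (pd Fr D (v n)).card)
  have h := path_tail hD v hinj hv n₀ hn₀
  refine no_path_aux hD (rk Fr D (v n₀)) (fun m => v (n₀ + 1 + m)) (fun a b hab => ?_)
    (fun m => hv (n₀ + 1 + m)) (fun m => (pd_mem hD (h m)).2.1)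
  have := hinj hab
  omega

end Path

section Indep

open Pool.Agent.Lib.IncompactB

variable {Ω W : Type} {M : Type*} [LinearOrder Ω] {Fr : Frame Ω W M} {D : Data Ω W M}

/-- Reflection below a point of `Ω`. -/
theorem exists_closure (κ : Cardinal.{0}) (hΩ : Reg κ Ω) [WellFoundedLT Ω] [Nonempty Ω]
    (A : Set W) : ∃ δ : Ω, (∀ k, (∃ h ∈ A, k ≤ rk Fr D h) → ∃ h ∈ A, Fr.b h < δ ∧ k ≤ rk Fr D h) ∧
      ∀ t, Fr.b t < δ → ∀ k, (∃ h ∈ A, t ∈ pd Fr D h ∧ k ≤ rk Fr D h) →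
        ∃ h ∈ A, Fr.b h < δ ∧ t ∈ pd Fr D h ∧ k ≤ rk Fr D h := by
  classical
  by_cases hW : Nonempty W
  swap
  · exact ⟨Classical.arbitrary Ω, fun k ⟨h, _⟩ => (hW ⟨h⟩).elim, fun t => (hW ⟨t⟩).elim⟩
  -- witnesses
  let w0 : ℕ → W := fun k => if h : ∃ h ∈ A, k ≤ rk Fr D h then h.choose else hW.some
  let w1 : W → ℕ → W := fun t k => if h : ∃ h ∈ A, t ∈ pd Fr D h ∧ k ≤ rk Fr D h then h.choose
    else hW.some
  let inv : Ω → W := fun ξ => if h : ∃ t, Fr.b t = ξ then h.choose else hW.some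
  have hinv : ∀ t, inv (Fr.b t) = t := by
    intro t
    have h : ∃ t', Fr.b t' = Fr.b t := ⟨t, rfl⟩
    have h1 : inv (Fr.b t) = h.choose := by
      simp only [inv]
      rw [dif_pos h]
    rw [h1]
    exact Fr.b_inj h.choose_spec
  obtain ⟨h, δ, -, hδ, -, hcl⟩ := hΩ.closure_pt (I := ℕ) (by
    rw [Cardinal.mk_nat]
    exact hΩ.inf) (fun _ n ξ => max (Fr.b (w0 n)) (Fr.b (w1 (inv ξ) n)))
  refine ⟨δ, fun k hk => ?_, fun t ht k hk => ?_⟩
  · have h1 := hcl [] k (h 0) (by simp) (hδ 0)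
    have h2 : w0 k = hk.choose := by
      simp only [w0]
      rw [dif_pos hk]
    refine ⟨w0 k, ?_, lt_of_le_of_lt (le_max_left _ _) h1, ?_⟩
    · rw [h2]; exact hk.choose_spec.1
    · rw [h2]; exact hk.choose_spec.2
  · have h1 := hcl [] k (Fr.b t) (by simp) ht
    have h2 : w1 t k = hk.choose := by
      simp only [w1]
      rw [dif_pos hk]
    simp only [hinv] at h1
    refine ⟨w1 t k, ?_, lt_of_le_of_lt (le_max_right _ _) h1, ?_, ?_⟩
    · rw [h2]; exact hk.choose_spec.1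
    · rw [h2]; exact hk.choose_spec.2.1
    · rw [h2]; exact hk.choose_spec.2.2

/-- Every independent set avoids a task at all the late rows. -/
theorem indep (κ : Cardinal.{0}) (hΩ : Reg κ Ω) [WellFoundedLT Ω] [Nonempty Ω]
    (hE : ∀ (δ : Ω) (A : Set Ω), (∀ x ∈ A, x < δ) → ∃ j, Fr.E j = A)
    (hD : ∀ ξ, Good Fr ξ D (D ξ)) (A : Set W)
    (hA : ∀ x ∈ A, ∀ y ∈ A, ¬ (graph Fr D).Adj x y) :
    ∃ ξ₀, ∀ ξ ≥ ξ₀, ∃ δ j, δ < ξ ∧ j < ξ ∧ ∀ x ∈ A, Fr.row x = ξ → Fr.c ξ δ j ∉ Fr.s x := by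
  classical
  obtain ⟨δ, hδ0, hδ1⟩ := exists_closure (Fr := Fr) (D := D) κ hΩ A
  obtain ⟨j, hj⟩ := hE δ {x | x < δ ∧ ∃ h ∈ A, Fr.b h = x} (fun x hx => hx.1)
  have hmem : ∀ h, Fr.b h < δ → (Fr.b h ∈ Fr.E j ↔ h ∈ A) := by
    intro h hh
    rw [hj]
    constructor
    · rintro ⟨-, h', hA', he⟩
      rw [← Fr.b_inj he]
      exact hA'
    · exact fun hA' => ⟨hh, h, hA', rfl⟩
  obtain ⟨ξ₁, hξ₁⟩ := hΩ.bdd {h : W // Fr.b h < δ} (fun h => Fr.row h.1) (by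
    refine le_trans ?_ (hΩ.iic δ)
    refine Cardinal.mk_le_of_injective (f := fun h => (⟨Fr.b h.1, h.2.le⟩ : Set.Iic δ)) ?_
    intro h h' hh
    have := congrArg Subtype.val hh
    exact Subtype.ext (Fr.b_inj this))
  obtain ⟨ξ₂, hξ₂⟩ := hΩ.bdd (Fin 3) ![ξ₁, δ, j] (le_trans (by simp) hΩ.inf)
  refine ⟨ξ₂, fun ξ hξ => ⟨δ, j, ?_, ?_, ?_⟩⟩
  · exact lt_of_lt_of_le (hξ₂ 1) hξ
  · exact lt_of_lt_of_le (hξ₂ 2) hξ
  · intro x hx hrow hc
    have hrow' : ∀ h, Fr.b h < δ → Fr.row h < ξ := by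
      intro h hh
      have h1 : ξ₁ < ξ₂ := hξ₂ 0
      exact ((hξ₁ ⟨h, hh⟩).trans h1).trans_le hξ
    have htask := (hD ξ).task (Fr.s x) δ j (lt_of_lt_of_le (hξ₂ 1) hξ)
      (lt_of_lt_of_le (hξ₂ 2) hξ) hc
    have hpd : (D ξ (Fr.s x)).1 = pd Fr D x := by
      unfold pd
      rw [hrow]
    have hrk : (D ξ (Fr.s x)).2 = rk Fr D x := by
      unfold rk
      rw [hrow]
    rw [hpd, hrk] at htask
    rcases htask with ⟨h, h1, h2, h3⟩ | h1 | ⟨u, h1, h2, h3⟩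
    · refine hA h ((hmem h h2).1 h3) x hx ⟨?_, Or.inl h1⟩
      rintro rfl
      exact not_mem_pd_self hD _ h1
    · obtain ⟨h, h2, h3, h4⟩ := hδ0 (rk Fr D x) ⟨x, hx, le_rfl⟩
      have := h1 h (hrow' h h3) h3 ((hmem h h3).2 h2)
      omega
    · obtain ⟨h, h4, h5, h6, h7⟩ := hδ1 u h2 (rk Fr D x) ⟨x, hx, h1, le_rfl⟩
      have := h3 h (hrow' h h5) h5 ((hmem h h5).2 h4) h6
      omega

end Indep

end Pool.Agent.Lib.EHM47
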