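import Pool.Agent.Lib.EHM47.Assign

/-!
# The number of terms of the normal form

The ordinals below `κ ^ κ` whose base-`κ` normal form has at most `m` terms form a set of order type
at most `κ ^ (2 * m)`.  (This is a form of the Milner–Rado paradox.)
-/

namespace Pool.Agent.Lib.EHM47

open Ordinal Cardinal Set Order

/-- The number of terms of the base `κ` normal form. -/
noncomputable def len (κ r : Ordinal.{0}) : ℕ := (Ordinal.CNF κ r).length

theorem len_ne_zero {κ r : Ordinal.{0}} (hr : r ≠ 0) :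
    len κ r = len κ (r % κ ^ log κ r) + 1 := by
  unfold len
  rw [Ordinal.CNF.ne_zero hr]
  rfl

theorem log_lt_of_lt {κ r k : Ordinal.{0}} (hκ : 1 < κ) (hr : r ≠ 0) (h : r < κ ^ k) :
    log κ r < k := (lt_opow_iff_log_lt hκ hr).1 h

theorem len_emb {κ : Ordinal.{0}} (hκ : 1 < κ) : ∀ m : ℕ,
    Emb {r | r < κ ^ κ ∧ len κ r ≤ m} (κ ^ ((2 * m : ℕ) : Ordinal.{0})) := by
  have hκ0 : 0 < κ := zero_lt_one.trans hκ
  intro m
  induction m with
  | zero =>
    have h0 : ∀ r, len κ r ≤ 0 → r = 0 := by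
      intro r hr
      by_contra hne
      rw [len_ne_zero hne] at hr
      omega
    refine ⟨fun _ => 0, fun r _ => opow_pos _ hκ0, fun x hx y hy hxy => ?_⟩
    rw [h0 y hy.2] at hxy
    exact absurd hxy (not_lt_zero)
  | succ m ih =>
    obtain ⟨f, hf1, hf2⟩ := ih
    have hpow : κ ^ ((2 * (m + 1) : ℕ) : Ordinal.{0})
        = κ ^ ((2 * m : ℕ) : Ordinal.{0}) * (κ * κ) := by
      rw [show 2 * (m + 1) = 2 * m + 1 + 1 by ring, Nat.cast_add, Nat.cast_add, Nat.cast_one,
        opow_add, opow_add, opow_one, mul_assoc]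
    have hmem : ∀ r ∈ {r | r < κ ^ κ ∧ len κ r ≤ m + 1}, r ≠ 0 →
        r % κ ^ log κ r ∈ {r | r < κ ^ κ ∧ len κ r ≤ m} := by
      intro r hr hne
      refine ⟨lt_of_le_of_lt (Ordinal.mod_le _ _) hr.1, ?_⟩
      have := hr.2
      rw [len_ne_zero hne] at this
      omega
    refine ⟨fun r => if r = 0 then 0 else κ ^ ((2 * m : ℕ) : Ordinal.{0}) *
      (κ * log κ r + r / κ ^ log κ r) + f (r % κ ^ log κ r), fun r hr => ?_,
      fun x hx y hy hxy => ?_⟩
    · simp only
      split_ifs with h0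
      · exact opow_pos _ hκ0
      · rw [hpow]
        refine mul_add_lt ?_ (hf1 _ (hmem r hr h0))
        exact mul_add_lt (log_lt_of_lt hκ h0 hr.1) (div_opow_log_lt r hκ)
    · have hy0 : y ≠ 0 := (lt_of_le_of_lt zero_le hxy).ne'
      simp only
      rw [if_neg hy0]
      by_cases hx0 : x = 0
      · rw [if_pos hx0]
        refine lt_of_lt_of_le ?_ le_self_add
        refine mul_pos (opow_pos _ hκ0) ?_
        exact lt_of_lt_of_le (div_opow_log_pos κ hy0) le_add_self
      · rw [if_neg hx0]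
        rcases (log_mono_right κ hxy.le).lt_or_eq with h1 | h1
        · refine mul_add_lt_mul_add _ ?_ (hf1 _ (hmem x hx hx0))
          exact mul_add_lt_mul_add _ h1 (div_opow_log_lt x hκ)
        · rw [← h1]
          have hy' := hmem y hy hy0
          rw [← h1] at hy'
          rcases div_mod_lt (a := κ ^ log κ x) hxy with h2 | ⟨h2, h3⟩
          · refine mul_add_lt_mul_add _ ?_ (hf1 _ (hmem x hx hx0))
            exact (add_lt_add_iff_left _).2 h2
          · rw [h2]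
            refine (add_lt_add_iff_left _).2 (hf2 _ (hmem x hx hx0) _ hy' h3)

/-- A bound for a family of length less than a regular cardinal. -/
theorem exists_bound {c : Cardinal.{0}} (hc : c.IsRegular) {τ : Ordinal.{0}} (hτ : τ < c.ord)
    (g : Ordinal.{0} → Ordinal.{0}) (hg : ∀ i < τ, g i < c.ord) :
    ∃ G < c.ord, ∀ i < τ, g i < G := by
  have h1 : #(τ.ToType) < c.ord.cof := by
    rw [hc.cof_ord, Cardinal.mk_toType]
    exact Cardinal.lt_ord.1 hτ
  let f : τ.ToType → Ordinal.{0} := fun i => g (Ordinal.ToType.mk.symm i).1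
  have hf : ∀ i, f i < c.ord := fun i => hg _ (Ordinal.ToType.mk.symm i).2
  refine ⟨⨆ i, f i + 1, Ordinal.iSup_add_one_lt_of_lt_cof h1 hf, fun i hi => ?_⟩
  have h2 := Ordinal.lt_iSup_add_one f (Ordinal.ToType.mk ⟨i, hi⟩)
  simp only [f, OrderIso.symm_apply_apply] at h2
  exact h2

/-- The case of the finite subsets of `ω₁`. -/
theorem assign_one (κ L : Ordinal.{0}) (hκω : ω ≤ κ) (hL : L ≤ κ) (hlim : IsSuccLimit L)
    (e : Ordinal.{0} → Ordinal.{0} → Ordinal.{0}) (he : ∀ k < L, ∀ τ < k, e k τ < ω)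
    (hinj : ∀ k < L, ∀ τ < k, ∀ τ' < k, e k τ = e k τ' → τ = τ') :
    ∃ s' : Ordinal.{0} → Finset Ordinal.{0}, ∀ τ < L,
      Emb {r | r < κ ^ L ∧ τ ∉ s' r} (κ ^ (max τ ω + 1)) := by
  classical
  have hκ : 1 < κ := one_lt_omega0.trans_le hκω
  have hκ0 : 0 < κ := zero_lt_one.trans hκ
  obtain ⟨s', hs'⟩ := assign_step κ 0 1 ω L ω hκ hκω hL hlim e he hinj
    (fun _ r => (Finset.range (len κ r)).image (fun m : ℕ => (m : Ordinal.{0})))
    (fun k hk τ hτ => by
      obtain ⟨m, rfl⟩ := lt_omega0.1 hτ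
      refine (len_emb hκ m).mono ?_ (opow_le_opow_right hκ0 (natCast_lt_omega0 _).le)
      rintro r ⟨hr1, hr2⟩
      refine ⟨?_, ?_⟩
      · rw [zero_add, one_mul] at hr1
        exact hr1.trans_le (opow_le_opow_right hκ0 (hk.le.trans hL))
      · by_contra hcon
        push Not at hcon
        exact hr2 (Finset.mem_image.2 ⟨m, Finset.mem_range.2 hcon, rfl⟩))
  refine ⟨s', fun τ hτ => ?_⟩
  have h := hs' τ hτ
  simp only [zero_add, one_mul] at h
  exact h

/-- Finite subsets of `ω₁` assigned to the ordinals below `κ ^ k`, `k < ω₂`. -/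
theorem assign_two_aux (κ : Ordinal.{0}) (c : Cardinal.{0}) (hc : c.IsRegular) (hcω : ω < c.ord)
    (L : Ordinal.{0}) (hκ : IsSuccLimit κ) (hL : L ≤ κ)
    (e₁ : Ordinal.{0} → Ordinal.{0} → Ordinal.{0}) (he₁ : ∀ k < c.ord, ∀ τ < k, e₁ k τ < ω)
    (hinj₁ : ∀ k < c.ord, ∀ τ < k, ∀ τ' < k, e₁ k τ = e₁ k τ' → τ = τ')
    (e₂ : Ordinal.{0} → Ordinal.{0} → Ordinal.{0}) (he₂ : ∀ k < L, ∀ τ < k, e₂ k τ < c.ord)
    (hinj₂ : ∀ k < L, ∀ τ < k, ∀ τ' < k, e₂ k τ = e₂ k τ' → τ = τ') :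
    ∀ k < L, ∃ s : Ordinal.{0} → Finset Ordinal.{0}, ∀ τ < c.ord, ∃ g < c.ord,
      Emb {r | r < κ ^ k ∧ τ ∉ s r} (κ ^ g) := by
  classical
  have hκω : ω ≤ κ := omega0_le_of_isSuccLimit hκ
  have hκ1 : 1 < κ := one_lt_omega0.trans_le hκω
  have hκ0 : 0 < κ := zero_lt_one.trans hκ1
  have hclim : IsSuccLimit c.ord := isSuccLimit_ord hc.aleph0_le
  intro k
  induction k using WellFoundedLT.induction with
  | _ k ih =>
    intro hk
    have ih' : ∀ j < k, ∃ s : Ordinal.{0} → Finset Ordinal.{0}, ∀ τ < c.ord, ∃ g < c.ord,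
        Emb {r | r < κ ^ j ∧ τ ∉ s r} (κ ^ g) := fun j hj => ih j hj (hj.trans hk)
    choose! S hS using ih'
    choose! g hg hS using hS
    choose! F hF1 hF2 using hS
    choose ℓ hℓ1 hℓ2 using len_emb hκ1
    -- the new finite sets
    let v : Ordinal.{0} → Ordinal.{0} := fun r => e₂ k (log κ r)
    have hfin : ∀ r, r ≠ 0 → r < κ ^ k →
        {τ | τ < v r ∧ e₁ (v r) τ < (len κ r : Ordinal.{0})}.Finite := by
      intro r hr0 hr
      have hv : v r < c.ord := he₂ k hk _ (log_lt_of_lt hκ1 hr0 hr)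
      refine Set.Finite.of_finite_image (f := e₁ (v r))
        (((Finset.range (len κ r)).image (fun m : ℕ => (m : Ordinal.{0}))).finite_toSet.subset
          ?_) ?_
      · rintro _ ⟨τ, hτ, rfl⟩
        obtain ⟨m, hm⟩ := lt_omega0.1 (he₁ _ hv τ hτ.1)
        have hτ2 := hτ.2
        rw [hm] at hτ2 ⊢
        refine Finset.mem_coe.2 (Finset.mem_image.2 ⟨m, Finset.mem_range.2 ?_, rfl⟩)
        exact_mod_cast hτ2
      · intro τ hτ τ' hτ' h
        exact hinj₁ _ hv τ hτ.1 τ' hτ'.1 h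
    let s : Ordinal.{0} → Finset Ordinal.{0} := fun r =>
      if h : r ≠ 0 ∧ r < κ ^ k then
        S (log κ r) (r % κ ^ log κ r) ∪ (hfin r h.1 h.2).toFinset else ∅
    have hs : ∀ r, r ≠ 0 → r < κ ^ k → ∀ τ, τ ∉ s r →
        τ ∉ S (log κ r) (r % κ ^ log κ r) ∧ (τ < v r → (len κ r : Ordinal.{0}) ≤ e₁ (v r) τ) := by
      intro r hr0 hr τ hτ
      have h1 : s r = S (log κ r) (r % κ ^ log κ r) ∪ (hfin r hr0 hr).toFinset := by
        simp only [s]
        rw [dif_pos ⟨hr0, hr⟩]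
      rw [h1, Finset.mem_union, not_or, Set.Finite.mem_toFinset] at hτ
      refine ⟨hτ.1, fun h2 => ?_⟩
      by_contra h3
      push Not at h3
      exact hτ.2 ⟨h2, h3⟩
    refine ⟨s, fun τ hτ => ?_⟩
    -- the exponent
    have hbd : ∃ G < c.ord, ∀ i < τ + 1, (fun i => if h : ∃ j < k, e₂ k j = i then
        g h.choose τ + 1 else 0) i < G := by
      refine exists_bound hc (hclim.add_one_lt hτ) _ (fun i _ => ?_)
      split_ifs with h
      · exact hclim.add_one_lt (hg _ h.choose_spec.1 τ hτ)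
      · exact hclim.bot_lt
    obtain ⟨G₀, hG₀, hG₀'⟩ := hbd
    have hG₁ : ∀ j < k, e₂ k j ≤ τ → g j τ + 1 ≤ G₀ := by
      intro j hj hjτ
      have h1 := hG₀' (e₂ k j) (Order.lt_add_one_iff.2 hjτ)
      have h2 : ∃ j' < k, e₂ k j' = e₂ k j := ⟨j, hj, rfl⟩
      beta_reduce at h1
      rw [dif_pos h2] at h1
      have h3 : h2.choose = j := hinj₂ k hk _ h2.choose_spec.1 j hj h2.choose_spec.2
      rw [h3] at h1
      exact h1.le
    set G := max ω G₀ with hG
    have hGc : G < c.ord := max_lt hcω hG₀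
    have hN : ∀ j, ∃ n : ℕ, j < k → τ < e₂ k j → e₁ (e₂ k j) τ = n := by
      intro j
      by_cases hj : j < k ∧ τ < e₂ k j
      · obtain ⟨n, hn⟩ := lt_omega0.1 (he₁ _ (he₂ k hk j hj.1) τ hj.2)
        exact ⟨n, fun _ _ => hn⟩
      · exact ⟨0, fun h1 h2 => (hj ⟨h1, h2⟩).elim⟩
    choose N hN using hN
    -- membership facts
    have hlog : ∀ r, r < κ ^ k → r ≠ 0 → log κ r < k := fun r hr hr0 => log_lt_of_lt hκ1 hr0 hr
    have hA : ∀ r, r < κ ^ k → r ≠ 0 → τ ∉ s r →
        r % κ ^ log κ r ∈ {p | p < κ ^ log κ r ∧ τ ∉ S (log κ r) p} := fun r hr hr0 hτs =>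
      ⟨Ordinal.mod_lt _ (opow_pos _ hκ0).ne', (hs r hr0 hr τ hτs).1⟩
    have hB : ∀ r, r < κ ^ k → r ≠ 0 → τ ∉ s r → ¬ e₂ k (log κ r) ≤ τ →
        r ∈ {p | p < κ ^ κ ∧ len κ p ≤ N (log κ r)} := by
      intro r hr hr0 hτs hle
      push Not at hle
      refine ⟨hr.trans_le (opow_le_opow_right hκ0 (hk.le.trans hL)), ?_⟩
      have h1 := (hs r hr0 hr τ hτs).2 hle
      have h2 := hN _ (hlog r hr hr0) hle
      have h3 : e₁ (v r) τ = e₁ (e₂ k (log κ r)) τ := rfl
      rw [h3, h2] at h1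
      exact_mod_cast h1
    let Xf : Ordinal.{0} → Ordinal.{0} := fun r =>
      if e₂ k (log κ r) ≤ τ then
        κ ^ (g (log κ r) τ) * (r / κ ^ log κ r) + F (log κ r) τ (r % κ ^ log κ r)
      else ℓ (N (log κ r)) r
    have hX1 : ∀ r, r < κ ^ k → r ≠ 0 → τ ∉ s r → Xf r < κ ^ G := by
      intro r hr hr0 hτs
      simp only [Xf]
      split_ifs with h
      · have h1 := hF1 (log κ r) (hlog r hr hr0) τ hτ _ (hA r hr hr0 hτs)
        refine (mul_add_lt (div_opow_log_lt r hκ1) h1).trans_le ?_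
        rw [← opow_add_one]
        exact opow_le_opow_right hκ0 ((hG₁ _ (hlog r hr hr0) h).trans (le_max_right _ _))
      · refine (hℓ1 _ r (hB r hr hr0 hτs h)).trans_le (opow_le_opow_right hκ0 ?_)
        exact (natCast_lt_omega0 _).le.trans (le_max_left _ _)
    refine ⟨G + 1, hclim.add_one_lt hGc, fun r => if r = 0 then 0 else
      κ ^ G * (log κ r + 1) + Xf r, fun r hr => ?_, fun x hx y hy hxy => ?_⟩
    · obtain ⟨hr1, hr2⟩ := hr
      simp only
      split_ifs with h0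
      · exact opow_pos _ hκ0
      · rw [opow_add_one]
        refine mul_add_lt ?_ (hX1 r hr1 h0 hr2)
        exact hκ.add_one_lt ((hlog r hr1 h0).trans (hk.trans_le hL))
    · obtain ⟨hx1, hx2⟩ := hx
      obtain ⟨hy1, hy2⟩ := hy
      have hy0 : y ≠ 0 := (lt_of_le_of_lt zero_le hxy).ne'
      simp only
      rw [if_neg hy0]
      by_cases hx0 : x = 0
      · rw [if_pos hx0]
        refine lt_of_lt_of_le (mul_pos (opow_pos G hκ0) ?_) le_self_add
        exact lt_of_lt_of_le zero_lt_one le_add_self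
      · rw [if_neg hx0]
        rcases (log_mono_right κ hxy.le).lt_or_eq with h1 | h1
        · refine mul_add_lt_mul_add _ ?_ (hX1 x hx1 hx0 hx2)
          exact (Order.add_one_le_of_lt h1).trans_lt (lt_add_one _)
        · rw [← h1]
          refine (add_lt_add_iff_left _).2 ?_
          have hAx := hA x hx1 hx0 hx2
          have hAy := hA y hy1 hy0 hy2
          have hBx := hB x hx1 hx0 hx2
          have hBy := hB y hy1 hy0 hy2
          have hlx := hlog x hx1 hx0
          simp only [Xf]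
          rw [← h1] at hAy hBy ⊢
          by_cases h : e₂ k (log κ x) ≤ τ
          · rw [if_pos h, if_pos h]
            rcases div_mod_lt (a := κ ^ log κ x) hxy with h2 | ⟨h2, h3⟩
            · exact mul_add_lt_mul_add _ h2 (hF1 _ hlx τ hτ _ hAx)
            · rw [h2]
              exact (add_lt_add_iff_left _).2 (hF2 _ hlx τ hτ _ hAx _ hAy h3)
          · rw [if_neg h, if_neg h]
            exact hℓ2 _ x (hBx h) y (hBy h) hxy

end Pool.Agent.Lib.EHM47
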