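import Pool.Agent.Lib.EHM47.Graph
import Pool.Agent.Lib.EHM47.General

/-!
# Failure of property (P)
-/

namespace Pool.Agent.Lib.EHM47

open Ordinal Cardinal Set Order
open Pool.Agent.Lib.IncompactB (Reg)

/-- Property (P) of the ordinal `α`. -/
def PropP (α : Ordinal.{0}) : Prop :=
  ∀ G : SimpleGraph (Set.Iio α),
    (∃ f : ℕ → Set.Iio α, Function.Injective f ∧ ∀ n, G.Adj (f n) (f (n + 1))) ∨
      ∃ S : Set (Set.Iio α), (∀ x ∈ S, ∀ y ∈ S, ¬ G.Adj x y) ∧ Nonempty (S ≃o Set.Iio α)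

theorem reg_succ (κ : Cardinal.{0}) (hκ : ℵ₀ ≤ κ) : Reg κ (Order.succ κ).ord.ToType := by
  have hreg : (Order.succ κ).IsRegular := isRegular_succ hκ
  refine ⟨hκ, fun x => ?_, fun ι f hι => ?_⟩
  · have h1 : #(Set.Iio x) < Order.succ κ := by
      have h2 := Cardinal.mk_Iio_lt x (by
        rw [Cardinal.mk_toType, Cardinal.card_ord]
        exact (Ordinal.type_toType _).symm)
      rwa [Cardinal.mk_toType, Cardinal.card_ord] at h2
    rw [Order.lt_succ_iff] at h1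
    rw [← Set.Iio_insert]
    refine (Cardinal.mk_insert_le).trans ?_
    exact Cardinal.add_le_of_le hκ h1 (Cardinal.one_le_aleph0.trans hκ)
  · have h1 : #ι < (Order.succ κ).ord.cof := by
      rw [hreg.cof_ord, Order.lt_succ_iff]
      exact hι
    let f' : ι → Ordinal.{0} := fun j => (Ordinal.ToType.mk.symm (f j)).1
    have hf' : ∀ j, f' j < (Order.succ κ).ord := fun j => (Ordinal.ToType.mk.symm (f j)).2
    have h2 : (⨆ i, f' i + 1) < (Order.succ κ).ord := Ordinal.iSup_add_one_lt_of_lt_cof h1 hf'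
    refine ⟨Ordinal.ToType.mk ⟨_, h2⟩, fun j => ?_⟩
    rw [← Ordinal.ToType.mk.symm.lt_iff_lt, OrderIso.symm_apply_apply]
    exact Ordinal.lt_iSup_add_one f' j

/-- A set of ordinals below `α` that embeds in a smaller ordinal does not have order type `α`. -/
theorem not_orderIso {α β : Ordinal.{0}} (hβ : β < α) (S : Set (Set.Iio α))
    (F : Ordinal.{0} → Ordinal.{0}) (hF1 : ∀ x ∈ S, F x.1 < β)
    (hF2 : ∀ x ∈ S, ∀ y ∈ S, x < y → F x.1 < F y.1) (e : S ≃o Set.Iio α) : False := by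
  have key : ∀ x (hx : x < α), x ≤ F (e.symm ⟨x, hx⟩).1.1 := by
    intro x
    induction x using WellFoundedLT.induction with
    | _ x ih =>
      intro hx
      by_contra hcon
      push Not at hcon
      have h1 := ih _ hcon (hcon.trans hx)
      have h2 : (⟨F (e.symm ⟨x, hx⟩).1.1, hcon.trans hx⟩ : Set.Iio α) < ⟨x, hx⟩ := hcon
      have h3 := e.symm.strictMono h2
      have h4 := hF2 _ (e.symm ⟨F (e.symm ⟨x, hx⟩).1.1, hcon.trans hx⟩).2 _
        (e.symm ⟨x, hx⟩).2 h3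
      exact absurd h4 (not_lt.2 h1)
  exact absurd (hF1 _ (e.symm ⟨β, hβ⟩).2) (not_lt.2 (key β hβ))

/-- Codes for the pairs of elements of an initial segment. -/
theorem exists_codes (μ : Cardinal.{0}) (hμ : ℵ₀ ≤ μ) (Ω : Type) [LinearOrder Ω]
    (hΩ : Reg μ Ω) : ∃ c : Ω → Ω → Ω → Ordinal.{0},
      (∀ ξ δ j, δ < ξ → j < ξ → c ξ δ j < μ.ord) ∧
      ∀ ξ δ j δ' j', δ < ξ → j < ξ → δ' < ξ → j' < ξ → c ξ δ j = c ξ δ' j' → δ = δ' ∧ j = j' := by
  classical
  have h : ∀ ξ : Ω, ∃ c : Ω → Ω → Ordinal.{0}, (∀ δ j, δ < ξ → j < ξ → c δ j < μ.ord) ∧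
      ∀ δ j δ' j', δ < ξ → j < ξ → δ' < ξ → j' < ξ → c δ j = c δ' j' → δ = δ' ∧ j = j' := by
    intro ξ
    have h1 : #(Set.Iic ξ × Set.Iic ξ) ≤ #(μ.ord.ToType) := by
      rw [Cardinal.mk_prod, Cardinal.lift_id, Cardinal.mk_toType, Cardinal.card_ord]
      exact Cardinal.mul_le_of_le hμ (hΩ.iic ξ) (hΩ.iic ξ)
    obtain ⟨φ⟩ := (Cardinal.le_def _ _).1 h1
    refine ⟨fun δ j => if h : δ ≤ ξ ∧ j ≤ ξ then
      (Ordinal.ToType.mk.symm (φ (⟨δ, h.1⟩, ⟨j, h.2⟩))).1 else 0, fun δ j hδ hj => ?_,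
      fun δ j δ' j' hδ hj hδ' hj' h => ?_⟩
    · simp only
      rw [dif_pos ⟨hδ.le, hj.le⟩]
      exact (Ordinal.ToType.mk.symm (φ (⟨δ, hδ.le⟩, ⟨j, hj.le⟩))).2
    · simp only at h
      rw [dif_pos ⟨hδ.le, hj.le⟩, dif_pos ⟨hδ'.le, hj'.le⟩] at h
      have h3 := φ.injective (Ordinal.ToType.mk.symm.injective (Subtype.ext h))
      obtain ⟨h4, h5⟩ := Prod.mk.inj h3
      exact ⟨congrArg Subtype.val h4, congrArg Subtype.val h5⟩
  choose c hc1 hc2 using h
  exact ⟨c, fun ξ => hc1 ξ, fun ξ => hc2 ξ⟩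

/-- An enumeration of the bounded subsets. -/
theorem exists_enum (μ : Cardinal.{0}) (h2 : (2 : Cardinal.{0}) ^ μ = Order.succ μ)
    (hμ : ℵ₀ ≤ μ) (Ω : Type) [LinearOrder Ω] [Nonempty Ω] (hc : #Ω = Order.succ μ)
    (hΩ : Reg μ Ω) : ∃ E : Ω → Set Ω, ∀ (δ : Ω) (A : Set Ω), (∀ x ∈ A, x < δ) → ∃ j, E j = A := by
  classical
  have h1 : #(Σ δ : Ω, Set (Set.Iic δ)) ≤ #Ω := by
    rw [Cardinal.mk_sigma]
    refine (Cardinal.sum_le_mk_mul_iSup _).trans ?_
    rw [hc]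
    have hs : ℵ₀ ≤ Order.succ μ := hμ.trans (Order.le_succ μ)
    refine Cardinal.mul_le_of_le hs le_rfl ?_
    refine ciSup_le' (fun δ => ?_)
    rw [Cardinal.mk_set, ← h2]
    exact Cardinal.power_le_power_left two_ne_zero (hΩ.iic δ)
  obtain ⟨φ⟩ := (Cardinal.le_def _ _).1 h1
  have hne : Nonempty (Σ δ : Ω, Set (Set.Iic δ)) := ⟨⟨Classical.arbitrary Ω, ∅⟩⟩
  refine ⟨fun j => Subtype.val '' (Function.invFun φ j).2, fun δ A hA => ?_⟩
  refine ⟨φ ⟨δ, {x | x.1 ∈ A}⟩, ?_⟩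
  simp only
  rw [Function.leftInverse_invFun φ.injective]
  ext x
  constructor
  · rintro ⟨y, hy, rfl⟩
    exact hy
  · exact fun hx => ⟨⟨x, (hA x hx).le⟩, hx, rfl⟩

/-- The failure of (P). -/
theorem not_propP (μ : Cardinal.{0}) (hμ : ℵ₀ ≤ μ) (h2 : (2 : Cardinal.{0}) ^ μ = Order.succ μ)
    (b : Ordinal.{0}) (hb : b.card ≤ Order.succ μ)
    (hass : Assigned (Order.succ μ).ord b μ.ord) : ¬ PropP ((Order.succ μ).ord ^ (b + 2)) := by
  classical
  intro hP
  set κ : Ordinal.{0} := (Order.succ μ).ord with hκdef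
  have hs : ℵ₀ ≤ Order.succ μ := hμ.trans (Order.le_succ μ)
  have hκlim : IsSuccLimit κ := isSuccLimit_ord hs
  have hκω : ω ≤ κ := omega0_le_of_isSuccLimit hκlim
  have hκ1 : 1 < κ := one_lt_omega0.trans_le hκω
  have hκ0 : 0 < κ := zero_lt_one.trans hκ1
  set α : Ordinal.{0} := κ ^ (b + 2) with hα
  have hα' : α = κ ^ (b + 1) * κ := by
    rw [hα, ← opow_add_one, add_assoc, one_add_one_eq_two]
  obtain ⟨s, hs'⟩ := hass
  choose! g hg f hf1 hf2 using hs'
  have hΩ : Reg μ κ.ToType := reg_succ μ hμ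
  have hΩne : Nonempty κ.ToType := ⟨Ordinal.ToType.mk ⟨0, hκ0⟩⟩
  obtain ⟨c, hc1, hc2⟩ := exists_codes μ hμ κ.ToType hΩ
  obtain ⟨E, hE⟩ := exists_enum μ h2 hμ κ.ToType (by
    rw [Cardinal.mk_toType, hκdef, Cardinal.card_ord]) hΩ
  -- the injection `b`
  have hcard : #(α.ToType) ≤ #(κ.ToType) := by
    rw [Cardinal.mk_toType, Cardinal.mk_toType, hα]
    have h3 : κ.card = Order.succ μ := by rw [hκdef, Cardinal.card_ord]
    refine (Ordinal.card_opow_le _ _).trans (max_le ?_ (max_le le_rfl ?_))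
    · rw [h3]; exact hs
    · rw [h3, Ordinal.card_add]
      refine Cardinal.add_le_of_le hs hb (le_trans ?_ hs)
      exact (Cardinal.lt_aleph0.2 ⟨2, by simp⟩).le
  obtain ⟨φ⟩ := (Cardinal.le_def _ _).1 hcard
  let val : α.ToType → Ordinal.{0} := fun x => (Ordinal.ToType.mk.symm x).1
  have hval : ∀ x, val x < α := fun x => (Ordinal.ToType.mk.symm x).2
  have hrowlt : ∀ o < α, o / κ ^ (b + 1) < κ := by
    intro o ho
    rw [hα'] at ho
    exact (Ordinal.lt_mul_iff_div_lt (opow_pos _ hκ0).ne').1 ho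
  let Fr : Frame κ.ToType α.ToType Ordinal.{0} :=
    { row := fun x => Ordinal.ToType.mk ⟨val x / κ ^ (b + 1), hrowlt _ (hval x)⟩
      b := φ
      b_inj := φ.injective
      c := c
      c_inj := hc2
      s := fun x => s (val x % κ ^ (b + 1) % κ ^ b)
      E := E }
  obtain ⟨D, hD⟩ := exists_data (Fr := Fr)
  rcases hP ((graph Fr D).comap (Ordinal.ToType.mk : Set.Iio α → α.ToType)) with
    ⟨v, hinj, hv⟩ | ⟨S, hS, ⟨e⟩⟩
  · exact no_path hD (fun n => Ordinal.ToType.mk (v n))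
      (fun m n h => hinj (Ordinal.ToType.mk.injective h)) (fun n => hv n)
  · obtain ⟨ξ₀, hξ₀⟩ := indep (Fr := Fr) (D := D) μ hΩ hE hD
      {x | Ordinal.ToType.mk.symm x ∈ S} (by
        intro x hx y hy hadj
        refine hS _ hx _ hy ?_
        rw [SimpleGraph.comap_adj]
        simpa using hadj)
    -- the task avoided at the row `ρ`
    have htask : ∀ ρ : Ordinal.{0}, ∃ τ : Ordinal.{0}, (Ordinal.ToType.mk.symm ξ₀).1 ≤ ρ → ρ < κ →
        τ < μ.ord ∧ ∀ x ∈ S, x.1 / κ ^ (b + 1) = ρ → τ ∉ s (x.1 % κ ^ (b + 1) % κ ^ b) := by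
      intro ρ
      by_cases h : (Ordinal.ToType.mk.symm ξ₀).1 ≤ ρ ∧ ρ < κ
      · have hge : (Ordinal.ToType.mk ⟨ρ, h.2⟩ : κ.ToType) ≥ ξ₀ := by
          have h3 : Ordinal.ToType.mk.symm ξ₀ ≤ ⟨ρ, h.2⟩ := h.1
          have h4 := Ordinal.ToType.mk.monotone h3
          rwa [OrderIso.apply_symm_apply] at h4
        obtain ⟨δ, j, hδ, hj, hx⟩ := hξ₀ _ hge
        refine ⟨c _ δ j, fun _ _ => ⟨hc1 _ δ j hδ hj, fun x hxS hrow => ?_⟩⟩
        have h5 := hx (Ordinal.ToType.mk x) (by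
          show Ordinal.ToType.mk.symm (Ordinal.ToType.mk x) ∈ S
          rw [OrderIso.symm_apply_apply]
          exact hxS) (by
          show Ordinal.ToType.mk ⟨val (Ordinal.ToType.mk x) / κ ^ (b + 1), _⟩ = _
          congr 1
          refine Subtype.ext ?_
          show (Ordinal.ToType.mk.symm (Ordinal.ToType.mk x)).1 / κ ^ (b + 1) = ρ
          rw [OrderIso.symm_apply_apply]
          exact hrow)
        have h6 : Fr.s (Ordinal.ToType.mk x) = s (x.1 % κ ^ (b + 1) % κ ^ b) := by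
          show s ((Ordinal.ToType.mk.symm (Ordinal.ToType.mk x)).1 % κ ^ (b + 1) % κ ^ b) = _
          rw [OrderIso.symm_apply_apply]
        rw [h6] at h5
        exact h5
      · exact ⟨0, fun h1 h2 => (h ⟨h1, h2⟩).elim⟩
    choose τ hτ using htask
    set ξ : Ordinal.{0} := (Ordinal.ToType.mk.symm ξ₀).1 with hξ
    have hξκ : ξ < κ := (Ordinal.ToType.mk.symm ξ₀).2
    let Q : Ordinal.{0} → Ordinal.{0} := fun o =>
      κ ^ (g (τ (o / κ ^ (b + 1)))) * (o % κ ^ (b + 1) / κ ^ b) +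
        f (τ (o / κ ^ (b + 1))) (o % κ ^ (b + 1) % κ ^ b)
    let F : Ordinal.{0} → Ordinal.{0} := fun o => if o / κ ^ (b + 1) < ξ then o else
      κ ^ (b + 1) * ξ + (κ ^ b * (o / κ ^ (b + 1)) + Q o)
    have hmem : ∀ x ∈ S, ξ ≤ x.1 / κ ^ (b + 1) → x.1 % κ ^ (b + 1) % κ ^ b ∈
        {r | r < κ ^ b ∧ τ (x.1 / κ ^ (b + 1)) ∉ s r} := fun x hx hle =>
      ⟨Ordinal.mod_lt _ (opow_pos _ hκ0).ne', (hτ _ hle (hrowlt _ x.2)).2 x hx rfl⟩
    have hτμ : ∀ x ∈ S, ξ ≤ x.1 / κ ^ (b + 1) → τ (x.1 / κ ^ (b + 1)) < μ.ord :=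
      fun x hx hle => (hτ _ hle (hrowlt _ x.2)).1
    have hη : ∀ o : Ordinal.{0}, o % κ ^ (b + 1) / κ ^ b < κ := by
      intro o
      have h3 : o % κ ^ (b + 1) < κ ^ b * κ := by
        rw [← opow_add_one]
        exact Ordinal.mod_lt _ (opow_pos _ hκ0).ne'
      exact (Ordinal.lt_mul_iff_div_lt (opow_pos _ hκ0).ne').1 h3
    have hQ : ∀ x ∈ S, ξ ≤ x.1 / κ ^ (b + 1) → Q x.1 < κ ^ b := by
      intro x hx hle
      have h3 := hf1 _ (hτμ x hx hle) _ (hmem x hx hle)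
      refine (mul_add_lt (hη x.1) h3).trans_le ?_
      rw [← opow_add_one]
      exact opow_le_opow_right hκ0 (Order.add_one_le_of_lt (hg _ (hτμ x hx hle)))
    refine not_orderIso (α := α) (β := κ ^ (b + 1) * (ξ + 1)) ?_ S F (fun x hx => ?_)
      (fun x hx y hy hxy => ?_) e
    · rw [hα']
      have h3 := mul_add_lt (hκlim.add_one_lt hξκ) (opow_pos (b + 1) hκ0)
      rwa [add_zero] at h3
    · simp only [F]
      split_ifs with h
      · have h3 := (Ordinal.lt_mul_iff_div_lt (opow_pos (b + 1) hκ0).ne').2 h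
        refine h3.trans_le (mul_le_mul_right ?_ _)
        exact le_self_add
      · push Not at h
        rw [mul_add, mul_one]
        refine (add_lt_add_iff_left _).2 ?_
        have h3 := mul_add_lt (hrowlt _ x.2) (hQ x hx h)
        rwa [← opow_add_one] at h3
    · have hxy' : x.1 < y.1 := hxy
      have hrow : x.1 / κ ^ (b + 1) ≤ y.1 / κ ^ (b + 1) := Ordinal.div_le_left hxy'.le _
      simp only [F]
      by_cases h : x.1 / κ ^ (b + 1) < ξ
      · rw [if_pos h]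
        by_cases h' : y.1 / κ ^ (b + 1) < ξ
        · rw [if_pos h']
          exact hxy'
        · rw [if_neg h']
          exact ((Ordinal.lt_mul_iff_div_lt (opow_pos (b + 1) hκ0).ne').2 h).trans_le le_self_add
      · have h' : ¬ y.1 / κ ^ (b + 1) < ξ := fun h' => h (hrow.trans_lt h')
        rw [if_neg h, if_neg h']
        push Not at h h'
        refine (add_lt_add_iff_left _).2 ?_
        rcases div_mod_lt (a := κ ^ (b + 1)) hxy' with h3 | ⟨h3, h4⟩
        · exact mul_add_lt_mul_add _ h3 (hQ x hx h)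
        · have hmx := hmem x hx h
          have hmy := hmem y hy h'
          have hτx := hτμ x hx h
          simp only [Q]
          rw [← h3] at hmy ⊢
          refine (add_lt_add_iff_left _).2 ?_
          rcases div_mod_lt (a := κ ^ b) h4 with h5 | ⟨h5, h6⟩
          · exact mul_add_lt_mul_add _ h5 (hf1 _ hτx _ hmx)
          · rw [h5]
            exact (add_lt_add_iff_left _).2 (hf2 _ hτx _ hmx _ hmy h6)

end Pool.Agent.Lib.EHM47
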